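import Pool.Agent.H849.SG.Main

/-!
# Sections and coverings of the product of a surface and a space of good reduction

Let `S` be a rigid-analytic surface (or curve) with a strictly semistable formal model with projective
special fibre, and let `G` be a rigid-analytic space of any dimension with a smooth formal model with
projective special fibre. Let `Z` be a rigid-analytic space with a strictly semistable formal model
with projective special fibre, and let `f : Z → S × G` be a Lefschetz map, for example the inclusion
of a complete intersection of ample divisors transversal to the strata, or an ample covering. We assume
that the restriction of the class `f_* 1` to the products of the double curves of `S` with `G` is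
`1 ⊗ β₀ + L ⊗ β₁`, where `L` is the class of the polarization of `S` and the `β_k` are arbitrary
classes on `G`. Then the cohomology of `Z` in all the degrees satisfies the weight-monodromy conjecture.

The proof uses the Hodge index theorem for the components of the special fibre of `S` and Weil's
theorem on their `H^1`. Nothing is assumed on the strata of `Z`, and the transcendental classes on the
components of the special fibre of `S` and on `G` are arbitrary.
-/

set_option autoImplicit false

namespace Pool.Agent.Results.MP_0f76a4_ag.SurfaceTimesGood

open Pool.Agent.Y143 Pool.Agent.H849.SEC Pool.Agent.H849.LM Pool.Agent.H849.SG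

universe u v

theorem result {Ω : Type u} [Field Ω] [CharZero Ω] [IsAlgClosed Ω] {Γ Γ' Γ'' : Type}
    {d N n q : ℕ} (hd : d ≤ 2) (hq : 1 < q)
    (S : SpecialFibre.{u, v} Ω Γ d q) (A : DivisorClasses S)
    (X : SpecialFibre.{u, v} Ω Γ' N q) (P : Product S.toStrataData X.toStrataData)
    (Z : SemistableModel.{u, v} Ω Γ'' n q) (f : PullBacks X.toStrataData Z.toStrataData)
    (hf : IsLefschetzMap n f) (M₀ M₁ : Module.End Ω P.U) (hM : P.HasClass f M₀ M₁) (j : ℕ) :
    IsPureIn Z j :=
  pure_of_product P hf hM A hd hq j

end Pool.Agent.Results.MP_0f76a4_ag.SurfaceTimesGood
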